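import Pool.Agent.R280.OrdBanachNet

/-!
# Norm convergence of increasing nets that have a supremum (MP_5ab9c0_an, Q1: no)

Let `X = c ⊕ ℝ` (`c` the convergent sequences) with the closed cone
`{(f, a) : f ≥ 0, 0 ≤ a ≤ lim f}`. If an increasing net has a supremum, then each coordinate, the
second component `a` and `lim f - a` converge to the right limits, and the net converges in norm by
Dini's theorem. The increasing sequence `(1_{0, ..., n}, 0)` is order bounded from above and does
not converge in norm.
-/

set_option autoImplicit false

universe u

open Filter Topology
open Pool.Agent.R280.OrdBanach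

namespace Pool.Agent.Results.MP_5ab9c0_an.SupremumConvergence

/-- There is a real Banach space `X` ordered by a closed cone `K` such that every increasing net
which has a supremum converges in norm to that supremum, but some increasing sequence which is order
bounded from above does not converge in norm. -/
theorem result : ∃ (X : Type) (_ : NormedAddCommGroup X) (_ : NormedSpace ℝ X) (K : Set X),
    CompleteSpace X ∧ IsClosedCone K ∧
      (∀ (J : Type u) [Preorder J] [IsDirectedOrder J] [Nonempty J] (x : J → X) (s : X),
        IsIncreasingNet K x → IsSmallestUpperBound K x s → Tendsto x atTop (𝓝 s)) ∧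
      ∃ x : ℕ → X, IsIncreasingNet K x ∧ (∃ u, IsUpperBound K x u) ∧
        ¬ ∃ s, Tendsto x atTop (𝓝 s) :=
  ⟨XX, inferInstance, inferInstance, KK, inferInstance, isClosedCone_KK,
    fun _ _ _ _ x s hx hs => net_tendsto x s hx hs, seq, seq_incr,
    ⟨mub 0, (mub_isMin 0 le_rfl zero_le_one).1⟩, seq_not_tendsto⟩

end Pool.Agent.Results.MP_5ab9c0_an.SupremumConvergence
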